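import Pool.Agent.U735.SO.Cls
import Pool.Agent.U735.IL.Exist

/-!
# Package SUB: motivic subobjects from the Casimir operator (helper678, for project SO of helper735)
-/

set_option autoImplicit false
set_option linter.unusedSectionVars false
set_option linter.unusedSimpArgs false
set_option backward.isDefEq.respectTransparency false
set_option backward.defeqAttrib.useBackward true

open CategoryTheory Limits MonoidalCategory Pretriangulated Triangulated TensorProduct

namespace Pool.Agent.U678.SO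

open Pool.Agent.Y116.MT Pool.Agent.V1178.MT Pool.Agent.U735.IL Pool.Agent.U735.SO

universe v u v₀ u₀ w x

open Functor.LaxMonoidal

section

variable {C : Type u} [Category.{v} C] [Preadditive C] [HasZeroObject C] [HasShift C ℤ]
  [∀ n : ℤ, (shiftFunctor C n).Additive] [Pretriangulated C] [MonoidalCategory C]
  [SymmetricCategory C] [TensorTriangulated C] {E : Type w} [Field E]
  {Γ : Type x} [Group Γ] {R : Realisation C E} {a : GalAct Γ R}
  [MonoidalPreadditive C] [RightRigidCategory C]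

/-- The evaluation map. -/
noncomputable def evm {M S D : C} (c : D ⟶ M ⊗ Sᘁ) : D ⊗ S ⟶ M :=
  (c ▷ S) ≫ (α_ M Sᘁ S).hom ≫ M ◁ ε_ S Sᘁ ≫ (ρ_ M).hom

lemma hm_evm {M S D : C} (c : D ⟶ M ⊗ Sᘁ) (e : R.H.obj D) (v : R.H.obj S) :
    hm R (evm c) (ex R e v) = con R M S (hm R c e) v := by
  unfold evm
  rw [hm_comp, hm_left]
  rfl

/-- The comparison with the tensor product of the space of linear maps. -/
lemma exists_psi (hD : DualityCompatible R) {M S D : C} (hM : Nn R M) (hS : R.Deg S 0)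
    (hDd : R.Deg D 0) (c : D ⟶ M ⊗ Sᘁ) (hc : Function.Injective (hm R c)) :
    ∃ Ψ : R.H.obj (D ⊗ S) →ₗ[E] ((R.H.obj S →ₗ[E] R.H.obj M) ⊗[E] R.H.obj S),
      Function.Injective Ψ ∧ ∀ (e : R.H.obj D) (v : R.H.obj S),
        Ψ (ex R e v) = (con R M S (hm R c e)) ⊗ₜ[E] v := by
  let Φ : R.H.obj D →ₗ[E] (R.H.obj S →ₗ[E] R.H.obj M) := (conB R M S) ∘ₗ (hm R c)
  have hΦ : Function.Injective Φ := by
    rw [← LinearMap.ker_eq_bot, LinearMap.ker_eq_bot']
    intro e he
    have h1 : con R M S (hm R c e) = 0 := he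
    have h2 := con_inj hD hM (Np.of_deg hS) _ h1
    exact hc (by rw [h2, map_zero])
  have hT : Function.Injective (LinearMap.rTensor (R.H.obj S) Φ) :=
    Module.Flat.rTensor_preserves_injective_linearMap Φ hΦ
  have hμ := mu_iso (Nn.of_deg hDd) (Nn.of_deg hS)
  have hb := (ConcreteCategory.isIso_iff_bijective (μ R.H D S)).1 hμ
  let L : (R.H.obj D ⊗[E] R.H.obj S) ≃ₗ[E] R.H.obj (D ⊗ S) :=
    LinearEquiv.ofBijective (μ R.H D S).hom hb
  refine ⟨(LinearMap.rTensor (R.H.obj S) Φ) ∘ₗ L.symm.toLinearMap, ?_, fun e v => ?_⟩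
  · exact hT.comp L.symm.injective
  · have h1 : ex R e v = L (e ⊗ₜ[E] v) := rfl
    rw [h1, LinearMap.comp_apply]
    have h2 : L.symm.toLinearMap (L (e ⊗ₜ[E] v)) = e ⊗ₜ[E] v := L.symm_apply_apply _
    rw [h2, LinearMap.rTensor_tmul]
    rfl

/-- A morphism between objects of degree zero is an isomorphism if it is one on cohomology. -/
lemma isIso_of_deg (hc : Conservative R) {S : C} (hS : R.Deg S 0) (u : S ⟶ S)
    (hu : Function.Bijective (hm R u)) : IsIso u := by
  refine isIso_of_all hc fun n => ?_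
  by_cases hn : n = 0
  · subst hn
    rw [vIso_zero_iff]
    exact (isIso_iff_bij u).2 hu
  · have h1 := hS n hn
    exact ⟨⟨0, h1.eq_of_src _ _, h1.eq_of_src _ _⟩⟩

end

section

variable {C₀ : Type u₀} [Category.{v₀} C₀] [Preadditive C₀] [HasZeroObject C₀] [HasShift C₀ ℤ]
  [∀ n : ℤ, (shiftFunctor C₀ n).Additive] [Pretriangulated C₀] [MonoidalCategory C₀]
  [SymmetricCategory C₀] [TensorTriangulated C₀]
  {C : Type u} [Category.{v} C] [Preadditive C] [HasZeroObject C] [HasShift C ℤ]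
  [∀ n : ℤ, (shiftFunctor C n).Additive] [Pretriangulated C] [MonoidalCategory C]
  [SymmetricCategory C] [TensorTriangulated C] {E : Type w} [Field E]
  {Γ : Type x} [Group Γ]
  [MonoidalPreadditive C₀] [RightRigidCategory C₀] [IsTriangulated C₀]
  [MonoidalPreadditive C] [RightRigidCategory C]
  {G : C₀ ⥤ C} [G.Monoidal] [G.Additive] [G.CommShift ℤ] {t₀ : TStructure C₀}
  {R₀ : Realisation C₀ E} {R : Realisation C E} {a : GalAct Γ R}

/-- The base change of an object of the heart has cohomology in degree zero. -/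
lemma deg_base (hG : Good t₀ R₀) (F : FunctionField G R₀ R a) {E₀ : C₀} (h : Hrt t₀ E₀) :
    R.Deg (G.obj E₀) 0 := by
  intro i hi
  have h1 : IsZero (R₀.H.obj (E₀⟦i⟧)) := hG.he.deg h i hi
  refine (h1.of_iso (F.iso.app (E₀⟦i⟧))).of_iso ?_
  exact R.H.mapIso ((G.commShiftIso i).app E₀).symm

theorem t_SUB (hG : Good t₀ R₀) (F : FunctionField G R₀ R a) (hD : DualityCompatible R)
    (hF : S_FAITH R) (hc : Conservative R) (hκ : S_KAPPA t₀ G a) (hLA : S_LA.{x, w})
    [CharZero E] [IsIdempotentComplete C] [IsTriangulated C] : S_SUB a := by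
  intro M S φ hM hS hss hss2 hφ hφe
  obtain ⟨E₀, c, n, p, q, κ, u, r, hE₀, hcinj, hcsurj, hp, hq, htr, hr, hκe, hu⟩ :=
    hκ M S hM hS hss2
  have hB0 : R.Deg (G.obj E₀) 0 := deg_base hG F hE₀
  have hB : R.Deg (G.obj E₀ ⊗ S) 0 := by simpa using hB0.tensor hS
  -- linear algebra
  obtain ⟨L1, L2, L3, L4⟩ := hLA E Γ (R.H.obj S) (R.H.obj M) (fun s => a.ap s S)
    (fun s => a.ap s M) (fun U hU => hss U hU) n (fun i => con R S S (p i))
    (fun i => con R S S (q i)) (fun i s => by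
      ext v
      exact (eqv_con (hp i) s v).symm) (fun i s => by
      ext v
      exact (eqv_con (hq i) s v).symm) (fun d hd => htr d fun s v =>
        (LinearMap.congr_fun (hd s) v).symm)
  have hU : ∀ v, (∑ i, con R S S (p i) ∘ₗ con R S S (q i) : Module.End E (R.H.obj S)) v =
      hm R u v := by
    intro v
    rw [hu, LinearMap.sum_apply]
    rfl
  have huiso : IsIso u := by
    refine isIso_of_deg hc hS u ?_
    have h1 : hm R u = (∑ i, con R S S (p i) ∘ₗ con R S S (q i) : Module.End E (R.H.obj S)) := by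
      ext v
      exact (hU v).symm
    rw [h1]
    exact L1
  obtain ⟨Ψ, hΨ, hΨe⟩ := exists_psi hD hM hS hB0 c hcinj
  -- the commutation rules
  have ext2 : ∀ f g : R.H.obj (G.obj E₀ ⊗ S) →ₗ[E] R.H.obj (G.obj E₀ ⊗ S),
      (∀ e v, f (ex R e v) = g (ex R e v)) → ∀ z, f z = g z := fun f g h z =>
    LinearMap.congr_fun (ext_ex (Nn.of_deg hB0) (Nn.of_deg hS) h) z
  have K1 : ∀ z, hm R κ (hm R κ z) = hm R κ (hm R (G.obj E₀ ◁ u) z) := by
    refine ext2 (hm R κ ∘ₗ hm R κ) (hm R κ ∘ₗ hm R (G.obj E₀ ◁ u)) fun e v => hΨ ?_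
    simp only [LinearMap.comp_apply, hm_right, hκe, map_sum, hΨe, hr]
    have h1 := L2 (con R M S (hm R c e)) v
    rw [hU] at h1
    exact h1
  have K2 : ∀ z, hm R κ (hm R (G.obj E₀ ◁ u) z) = hm R (G.obj E₀ ◁ u) (hm R κ z) := by
    refine ext2 (hm R κ ∘ₗ hm R (G.obj E₀ ◁ u)) (hm R (G.obj E₀ ◁ u) ∘ₗ hm R κ)
      fun e v => hΨ ?_
    simp only [LinearMap.comp_apply, hm_right, hκe, map_sum, hΨe, hr]
    have h1 := L3 (con R M S (hm R c e)) v
    rw [hU] at h1
    simp only [hU] at h1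
    exact h1
  have iu1 : ∀ z, hm R (G.obj E₀ ◁ u) (hm R (G.obj E₀ ◁ inv u) z) = z := by
    intro z
    rw [← hm_comp, ← MonoidalCategory.whiskerLeft_comp, IsIso.inv_hom_id,
      MonoidalCategory.whiskerLeft_id, hm_id]
  have iu2 : ∀ z, hm R (G.obj E₀ ◁ inv u) (hm R (G.obj E₀ ◁ u) z) = z := by
    intro z
    rw [← hm_comp, ← MonoidalCategory.whiskerLeft_comp, IsIso.hom_inv_id,
      MonoidalCategory.whiskerLeft_id, hm_id]
  have K3 : ∀ z, hm R κ (hm R (G.obj E₀ ◁ inv u) z) = hm R (G.obj E₀ ◁ inv u) (hm R κ z) := by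
    intro z
    have h1 := K2 (hm R (G.obj E₀ ◁ inv u) z)
    rw [iu1] at h1
    rw [h1, iu2]
  have hev : ∀ z, hm R (evm c) (hm R κ z) = hm R (evm c) (hm R (G.obj E₀ ◁ u) z) := by
    have h1 : (hm R (evm c)) ∘ₗ (hm R κ) = (hm R (evm c)) ∘ₗ (hm R (G.obj E₀ ◁ u)) := by
      refine ext_ex (Nn.of_deg hB0) (Nn.of_deg hS) fun e v => ?_
      simp only [LinearMap.comp_apply, hm_right, hκe, map_sum, hm_evm, hr, hu]
    exact fun z => LinearMap.congr_fun h1 z
  -- the idempotent
  have hπe : ∀ z, hm R (κ ≫ (G.obj E₀ ◁ inv u)) z = hm R (G.obj E₀ ◁ inv u) (hm R κ z) :=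
    fun z => hm_comp _ _ _
  have hπ : (κ ≫ (G.obj E₀ ◁ inv u)) ≫ (κ ≫ (G.obj E₀ ◁ inv u)) =
      κ ≫ (G.obj E₀ ◁ inv u) := by
    rw [← sub_eq_zero]
    refine hF _ _ _ (Np.of_deg hB) (Nn.of_deg hB) fun z => ?_
    rw [hm_sub, sub_eq_zero, hm_comp, hπe, hπe, K3, K1, K2, iu2]
  have hevπ : ∀ z, hm R (evm c) (hm R (κ ≫ (G.obj E₀ ◁ inv u)) z) = hm R (evm c) z := by
    intro z
    rw [hπe, ← K3, hev, iu1]
  have hker : ∀ z, hm R (evm c) z = 0 → hm R (κ ≫ (G.obj E₀ ◁ inv u)) z = 0 := by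
    intro z hz
    have h0 : hm R κ z = 0 := by
      obtain ⟨m, e, v, rfl⟩ := exists_sum (Nn.of_deg hB0) (Nn.of_deg hS) z
      have h1 : ∑ k, con R M S (hm R c (e k)) (v k) = 0 := by
        rw [← hz, map_sum]
        exact Finset.sum_congr rfl fun k _ => (hm_evm c (e k) (v k)).symm
      have h2 := L4 m (fun k => con R M S (hm R c (e k))) v (fun k s => by
        ext y
        have h3 : Ivt a _ (hm R c (e k)) := by
          intro g
          rw [ap_hm]
          have h4 : a.ap g (G.obj E₀) (e k) = e k := by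
            have h5 := F.trivial g E₀
            have h6 : a.ap g (G.obj E₀) (e k) = ((a.act g).hom.app (G.obj E₀)).hom (e k) := rfl
            rw [h6, h5]
            rfl
          rw [h4]
        exact (eqv_con h3 s y).symm) h1
      apply hΨ
      rw [map_zero, map_sum, map_sum, ← h2]
      refine Finset.sum_congr rfl fun k _ => ?_
      rw [hκe, map_sum]
      refine Finset.sum_congr rfl fun i _ => ?_
      rw [hΨe, hr]
    rw [hπe, h0, map_zero]
  obtain ⟨A, i, s, his, hsi⟩ := IsIdempotentComplete.idempotents_split _ _ hπ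
  refine ⟨A, i ≫ evm c, hB.retract i s his, fun hA => ?_, ?_⟩
  · -- `A` is not zero
    have h0 : κ ≫ (G.obj E₀ ◁ inv u) = 0 := by
      rw [← hsi, hA.eq_of_tgt s 0, zero_comp]
    apply hφ
    obtain ⟨z, hz⟩ := con_surj hD φ
    have hzi : Ivt a _ z := ivt_of_eqv hD hM (Np.of_deg hS) (by rw [hz]; exact hφe)
    obtain ⟨e, he⟩ := hcsurj z hzi
    ext v
    have h1 := hevπ (ex R e v)
    rw [h0, hm_zero, map_zero, hm_evm, he, hz] at h1
    exact h1.symm
  · -- injective
    rw [← LinearMap.ker_eq_bot, LinearMap.ker_eq_bot']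
    intro y hy
    rw [hm_comp] at hy
    have h1 := hker _ hy
    have h2 : hm R (κ ≫ (G.obj E₀ ◁ inv u)) (hm R i y) = hm R i y := by
      rw [← hsi, ← hm_comp, ← Category.assoc, his, Category.id_comp]
    rw [h2] at h1
    have h3 : hm R s (hm R i y) = y := by rw [← hm_comp, his, hm_id]
    rw [← h3, h1, map_zero]

end

end Pool.Agent.U678.SO
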